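import Pool.Agent.Helper15.PE.St

/-!
# Project PE, module REV: reversing the labels
-/

set_option autoImplicit false
open Classical

namespace Pool.Agent.Helper36.PE

open Pool.Agent.Helper15.PE
open Pool.Agent.Helper14.J1 (IsLE desN desN_eq)

theorem rev_apply {n : ℕ} (σ : Equiv.Perm (Fin n)) (i : Fin n) :
    (Fin.revPerm * σ : Equiv.Perm (Fin n)) i = (σ i).rev := rfl

theorem isLE_rev {N : ℕ} (le : Fin (N + 1) → Fin (N + 1) → Prop) (σ : Equiv.Perm (Fin (N + 1))) :
    IsLE (fun a b => le a.rev b.rev) σ ↔ IsLE le (Fin.revPerm * σ) := by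
  unfold IsLE
  simp only [rev_apply, ne_eq, Fin.rev_inj]

theorem desN_rev {N : ℕ} (σ : Equiv.Perm (Fin (N + 1))) :
    desN (Fin.revPerm * σ) + desN σ = N := by
  rw [desN_eq, desN_eq]
  have h1 : (Finset.univ.filter (fun j : Fin N =>
        (Fin.revPerm * σ : Equiv.Perm (Fin (N + 1))) j.succ <
          (Fin.revPerm * σ : Equiv.Perm (Fin (N + 1))) j.castSucc))
      = Finset.univ.filter (fun j : Fin N => ¬ (σ j.succ < σ j.castSucc)) := by
    ext j
    simp only [Finset.mem_filter, Finset.mem_univ, true_and, rev_apply, Fin.rev_lt_rev, not_lt]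
    constructor
    · intro h
      exact h.le
    · intro h
      refine lt_of_le_of_ne h fun he => ?_
      have h2 := σ.injective he
      have h3 := congrArg Fin.val h2
      simp at h3
  rw [h1, add_comm, Finset.card_filter_add_card_filter_not]
  simp

theorem hRev : StRev := by
  intro N le q hq
  unfold cnt
  refine Finset.card_equiv (Equiv.mulLeft (Fin.revPerm : Equiv.Perm (Fin (N + 1)))) ?_
  intro σ
  simp only [Finset.mem_filter, Finset.mem_univ, true_and, Equiv.coe_mulLeft]
  rw [isLE_rev]
  have h := desN_rev σ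
  constructor
  · rintro ⟨h1, h2⟩
    exact ⟨h1, by omega⟩
  · rintro ⟨h1, h2⟩
    exact ⟨h1, by omega⟩

end Pool.Agent.Helper36.PE
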